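import Pool.Agent.N541.LV.Stm

/-! # LV/TREE and LV/SUM -/

set_option autoImplicit false

namespace Pool.Agent.N255.LV

open Finset Pool.Agent.N541.LV

open scoped Classical in
lemma step (X : ℕ) (L : List ℕ → Prop) (W : List ℕ → ℝ) (t : ℕ) (k : ℝ)
    (h : ∀ p ∈ seqs X L t, ∀ Z : Finset ℕ, Z ⊆ Finset.Icc 1 X → (∀ z ∈ Z, L (z :: p)) →
      ∑ z ∈ Z, W (z :: p) ≤ k * W p) :
    ∑ p ∈ seqs X L (t + 1), W p ≤ k * ∑ p ∈ seqs X L t, W p := by
  have hinj : Set.InjOn (fun q : List ℕ × ℕ => q.2 :: q.1)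
      (((seqs X L t) ×ˢ Finset.Icc 1 X : Finset (List ℕ × ℕ)) : Set (List ℕ × ℕ)) := by
    rintro ⟨p, z⟩ _ ⟨p', z'⟩ _ he
    simp only [List.cons.injEq] at he
    rw [he.1, he.2]
  have e1 : ∑ p ∈ seqs X L (t + 1), W p
      = ∑ p ∈ seqs X L t, ∑ z ∈ (Finset.Icc 1 X).filter (fun z => L (z :: p)), W (z :: p) := by
    show ∑ p ∈ (((seqs X L t) ×ˢ Finset.Icc 1 X).image (fun q => q.2 :: q.1)).filter L, W p = _
    rw [Finset.sum_filter, Finset.sum_image hinj, Finset.sum_product]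
    refine Finset.sum_congr rfl fun p _ => ?_
    rw [Finset.sum_filter]
  rw [e1, Finset.mul_sum]
  refine Finset.sum_le_sum fun p hp => ?_
  exact h p hp _ (Finset.filter_subset _ _) fun z hz => (Finset.mem_filter.1 hz).2

theorem tree_main : TREEStm := by
  intro X T L W K hW hW0 hK hstep
  have key : ∀ t ≤ T, ∑ p ∈ seqs X L t, W p ≤ (∏ i ∈ Finset.range t, K i) * W [] := by
    intro t
    induction t with
    | zero =>
      intro _
      simp [seqs]
    | succ t ih =>
      intro ht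
      have h1 := step X L W t (K t) (hstep t (by omega))
      have h2 := ih (by omega)
      rw [Finset.prod_range_succ]
      calc ∑ p ∈ seqs X L (t + 1), W p ≤ K t * ∑ p ∈ seqs X L t, W p := h1
        _ ≤ K t * ((∏ i ∈ Finset.range t, K i) * W []) := mul_le_mul_of_nonneg_left h2 (hK t)
        _ = _ := by ring
  refine le_trans ?_ (key T le_rfl)
  have h3 : ∀ p ∈ seqs X L T, 1 ≤ W p := by
    intro p hp
    cases T with
    | zero =>
      have : p = [] := by simpa [seqs] using hp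
      rw [this]
      exact hW0
    | succ T =>
      classical
      rw [seqs] at hp
      exact hW p (Finset.mem_filter.1 hp).2
  calc ((seqs X L T).card : ℝ) = ∑ _p ∈ seqs X L T, (1 : ℝ) := by simp
    _ ≤ ∑ p ∈ seqs X L T, W p := Finset.sum_le_sum h3

lemma even_sum (q : ℕ) (n : ℕ) :
    ∑ t ∈ Finset.range (2 * n), max 0 (1 - ((((t + 2) / 2 : ℕ) : ℝ)) / (q : ℝ))
      = 2 * ∑ i ∈ Finset.range n, max 0 (1 - ((i : ℝ) + 1) / (q : ℝ)) := by
  induction n with
  | zero => simp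
  | succ n ih =>
    rw [show 2 * (n + 1) = 2 * n + 1 + 1 by ring, Finset.sum_range_succ, Finset.sum_range_succ, ih,
      Finset.sum_range_succ]
    have e1 : (2 * n + 2) / 2 = n + 1 := by omega
    have e2 : (2 * n + 1 + 2) / 2 = n + 1 := by omega
    rw [e1, e2]
    push_cast
    ring

lemma half_sum (q : ℕ) (hq : 1 ≤ q) (n : ℕ) :
    1 + 2 * ∑ i ∈ Finset.range n, max 0 (1 - ((i : ℝ) + 1) / (q : ℝ)) ≤ (q : ℝ) ∧
    (n ≤ q → 1 + 2 * ∑ i ∈ Finset.range n, max 0 (1 - ((i : ℝ) + 1) / (q : ℝ))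
      = 1 + 2 * n - n * (n + 1) / q) := by
  have hq0 : (0 : ℝ) < q := by exact_mod_cast hq
  induction n with
  | zero =>
    refine ⟨?_, fun _ => by simp⟩
    simp only [Finset.range_zero, Finset.sum_empty, mul_zero, add_zero]
    exact_mod_cast hq
  | succ n ih =>
    rw [Finset.sum_range_succ]
    rcases Nat.lt_or_ge n q with h | h
    · have e := ih.2 h.le
      have h1 : ((n : ℝ) + 1) ≤ q := by exact_mod_cast h
      have hm : max 0 (1 - ((n : ℝ) + 1) / (q : ℝ)) = 1 - ((n : ℝ) + 1) / q := by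
        apply max_eq_right
        rw [sub_nonneg, div_le_one hq0]
        exact h1
      have e2 : 1 + 2 * (∑ i ∈ Finset.range n, max 0 (1 - ((i : ℝ) + 1) / (q : ℝ))
          + max 0 (1 - ((n : ℝ) + 1) / (q : ℝ)))
          = 1 + 2 * ((n + 1 : ℕ) : ℝ) - ((n + 1 : ℕ) : ℝ) * (((n + 1 : ℕ) : ℝ) + 1) / q := by
        rw [hm, mul_add, ← add_assoc, e]
        push_cast
        field_simp
        ring
      refine ⟨?_, fun _ => e2⟩
      rw [e2]
      rw [sub_le_iff_le_add, ← sub_le_iff_le_add', le_div_iff₀ hq0]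
      have h2 : (0 : ℝ) ≤ (q - ((n + 1 : ℕ) : ℝ)) * (q - ((n + 1 : ℕ) : ℝ) - 1) := by
        rcases Nat.lt_or_ge (n + 1) q with h3 | h3
        · have : ((n + 1 : ℕ) : ℝ) + 1 ≤ q := by exact_mod_cast h3
          exact mul_nonneg (by linarith) (by linarith)
        · have : (q : ℝ) = ((n + 1 : ℕ) : ℝ) := by
            have : q = n + 1 := by omega
            exact_mod_cast this
          rw [this]
          simp
      nlinarith
    · have hm : max 0 (1 - ((n : ℝ) + 1) / (q : ℝ)) = 0 := by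
        apply max_eq_left
        rw [sub_nonpos, le_div_iff₀ hq0]
        have : (q : ℝ) ≤ n := by exact_mod_cast h
        linarith
      rw [hm, add_zero]
      exact ⟨ih.1, fun h4 => by omega⟩

theorem sum_main : SUMStm := by
  intro q T hq
  have h1 : ∑ t ∈ Finset.range T, max 0 (1 - ((((t + 2) / 2 : ℕ) : ℝ)) / (q : ℝ))
      ≤ ∑ t ∈ Finset.range (2 * T), max 0 (1 - ((((t + 2) / 2 : ℕ) : ℝ)) / (q : ℝ)) :=
    Finset.sum_le_sum_of_subset_of_nonneg (Finset.range_mono (by omega))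
      fun _ _ _ => le_max_left _ _
  rw [even_sum] at h1
  have h2 := (half_sum q hq T).1
  linarith

end Pool.Agent.N255.LV
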